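import Pool.Agent.W76.MO.Stmts

/-!
# MP_768c9c_nt: completely multiplicative version of the construction `W76.MO`.  Definitions.

`cm v n = ∏_{p^a ‖ n} v(p)^a` and the derivation `dm u v n = ∑_{p^a ‖ n} a u(p) cm v (n/p)`.
All other objects (cells, `Env`, `g`, hosts, weights) are those of `W76.MO`; the squarefree
`R`-rough numbers are replaced by all `R`-rough numbers.
-/

set_option autoImplicit false

namespace Pool.Agent.Y847.CMO

open Finset Filter Topology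
open scoped Classical
open Pool.Agent.W76.MO

/-! ### completely multiplicative extensions -/

/-- completely multiplicative extension of `v` -/
noncomputable def cm (v : ℕ → ℝ) (n : ℕ) : ℝ := n.factorization.prod (fun p k => v p ^ k)

/-- first order variation of `cm v` in the direction `u` -/
noncomputable def dm (u v : ℕ → ℝ) (n : ℕ) : ℝ :=
  ∑ p ∈ n.primeFactors, (n.factorization p : ℝ) * (u p * cm v (n / p))

lemma cm_one (v : ℕ → ℝ) : cm v 1 = 1 := by simp [cm]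

lemma cm_mul (v : ℕ → ℝ) {a b : ℕ} (ha : a ≠ 0) (hb : b ≠ 0) : cm v (a * b) = cm v a * cm v b := by
  unfold cm
  rw [Nat.factorization_mul ha hb]
  exact Finsupp.prod_add_index' (fun p => pow_zero _) (fun p k l => pow_add _ _ _)

lemma cm_prime (v : ℕ → ℝ) {p : ℕ} (hp : p.Prime) : cm v p = v p := by
  unfold cm
  rw [hp.factorization, Finsupp.prod_single_index (by simp), pow_one]

lemma cm_prime_mul (v : ℕ → ℝ) {p a : ℕ} (hp : p.Prime) (ha : a ≠ 0) :
    cm v (p * a) = v p * cm v a := by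
  rw [cm_mul v hp.ne_zero ha, cm_prime v hp]

/-- induction over the prime factors -/
theorem mult_ind {P : ℕ → Prop} (h1 : P 1) (hp : ∀ p a : ℕ, p.Prime → a ≠ 0 → P a → P (p * a)) :
    ∀ n : ℕ, n ≠ 0 → P n := by
  intro n
  induction n using induction_on_primes with
  | zero => intro h; exact absurd rfl h
  | one => intro _; exact h1
  | prime_mul p a hpp ih =>
    intro h
    have ha : a ≠ 0 := fun h0 => h (by rw [h0, mul_zero])
    exact hp p a hpp ha (ih ha)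

lemma cm_eq_prod (v : ℕ → ℝ) (n : ℕ) :
    cm v n = ∏ p ∈ n.primeFactors, v p ^ n.factorization p := rfl

lemma cm_nonneg (v : ℕ → ℝ) (hv : ∀ p, 0 ≤ v p) (n : ℕ) : 0 ≤ cm v n := by
  rw [cm_eq_prod]
  exact Finset.prod_nonneg fun p _ => pow_nonneg (hv p) _

lemma one_le_cm (v : ℕ → ℝ) (hv : ∀ p, 1 ≤ v p) (n : ℕ) : 1 ≤ cm v n := by
  rw [cm_eq_prod]
  have h := Finset.prod_le_prod (s := n.primeFactors) (f := fun _ => (1 : ℝ))
    (g := fun p => v p ^ n.factorization p) (fun _ _ => zero_le_one)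
    (fun p _ => one_le_pow₀ (hv p))
  simpa using h

lemma cm_le_cm (v w : ℕ → ℝ) (n : ℕ) (h0 : ∀ p ∈ n.primeFactors, 0 ≤ v p)
    (h : ∀ p ∈ n.primeFactors, v p ≤ w p) : cm v n ≤ cm w n := by
  rw [cm_eq_prod, cm_eq_prod]
  exact Finset.prod_le_prod (fun p hp => pow_nonneg (h0 p hp) _)
    (fun p hp => pow_le_pow_left₀ (h0 p hp) (h p hp) _)

lemma cm_congr (v w : ℕ → ℝ) (n : ℕ) (h : ∀ p ∈ n.primeFactors, v p = w p) : cm v n = cm w n := by
  rw [cm_eq_prod, cm_eq_prod]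
  exact Finset.prod_congr rfl fun p hp => by rw [h p hp]

lemma cm_mul_fun (v w : ℕ → ℝ) (n : ℕ) : cm (fun p => v p * w p) n = cm v n * cm w n := by
  rw [cm_eq_prod, cm_eq_prod, cm_eq_prod, ← Finset.prod_mul_distrib]
  exact Finset.prod_congr rfl fun p _ => mul_pow _ _ _

lemma cm_cast : ∀ n : ℕ, n ≠ 0 → cm (fun p => (p : ℝ)) n = n := by
  refine mult_ind (by simp [cm_one]) fun p a hp ha ih => ?_
  rw [cm_prime_mul _ hp ha, ih]; push_cast; ring

lemma cm_inv_cast : ∀ n : ℕ, n ≠ 0 → cm (fun p => 1 / (p : ℝ)) n = 1 / n := by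
  refine mult_ind (by simp [cm_one]) fun p a hp ha ih => ?_
  rw [cm_prime_mul _ hp ha, ih]; push_cast; rw [one_div_mul_one_div]

lemma cm_rpow (s : ℝ) : ∀ n : ℕ, n ≠ 0 → cm (fun p => (p : ℝ) ^ s) n = (n : ℝ) ^ s := by
  refine mult_ind (by simp [cm_one]) fun p a hp ha ih => ?_
  rw [cm_prime_mul _ hp ha, ih]; push_cast
  rw [Real.mul_rpow (by positivity) (by positivity)]

lemma dm_one (u v : ℕ → ℝ) : dm u v 1 = 0 := by simp [dm]

lemma dm_prime_mul (u v : ℕ → ℝ) {p a : ℕ} (hp : p.Prime) (ha : a ≠ 0) :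
    dm u v (p * a) = u p * cm v a + v p * dm u v a := by
  have hpa : p * a ≠ 0 := mul_ne_zero hp.ne_zero ha
  have hmem : p ∈ (p * a).primeFactors := by
    rw [Nat.mem_primeFactors]; exact ⟨hp, Dvd.intro _ rfl, hpa⟩
  have hsub : a.primeFactors ⊆ (p * a).primeFactors := Nat.primeFactors_mono (Dvd.intro_left _ rfl) hpa
  unfold dm
  have e1 : ∀ q ∈ (p * a).primeFactors, ((p * a).factorization q : ℝ) * (u q * cm v (p * a / q)) =
      (if q = p then u p * cm v a else 0) +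
        (a.factorization q : ℝ) * (u q * (v p * cm v (a / q))) := by
    intro q hq
    have hqp := Nat.prime_of_mem_primeFactors hq
    rw [Nat.factorization_mul hp.ne_zero ha, Finsupp.add_apply, hp.factorization]
    have e2 : (a.factorization q : ℝ) * (u q * cm v (p * a / q)) =
        (a.factorization q : ℝ) * (u q * (v p * cm v (a / q))) := by
      by_cases hqa : q ∣ a
      · have h1 : p * a / q = p * (a / q) := Nat.mul_div_assoc p hqa
        have h2 : a / q ≠ 0 := by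
          obtain ⟨b, rfl⟩ := hqa
          rw [Nat.mul_div_cancel_left b hqp.pos]
          exact fun h0 => ha (by rw [h0, mul_zero])
        rw [h1, cm_prime_mul v hp h2]
      · rw [Nat.factorization_eq_zero_of_not_dvd hqa]; simp
    by_cases hqp' : q = p
    · subst hqp'
      have h3 : q * a / q = a := Nat.mul_div_cancel_left a hqp.pos
      rw [if_pos rfl, Finsupp.single_eq_same]
      push_cast
      rw [add_mul, e2, h3]; ring
    · rw [if_neg hqp', Finsupp.single_eq_of_ne hqp', zero_add, zero_add, e2]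
  rw [Finset.sum_congr rfl e1, Finset.sum_add_distrib, Finset.sum_ite_eq' _ p, if_pos hmem]
  congr 1
  rw [Finset.mul_sum]
  symm
  have e3 : ∑ q ∈ a.primeFactors, v p * ((a.factorization q : ℝ) * (u q * cm v (a / q))) =
      ∑ q ∈ a.primeFactors, (a.factorization q : ℝ) * (u q * (v p * cm v (a / q))) :=
    Finset.sum_congr rfl fun q _ => by ring
  rw [e3]
  apply Finset.sum_subset hsub
  intro q _ hq
  have : a.factorization q = 0 := by
    rw [← Finsupp.notMem_support_iff, Nat.support_factorization]; exact hq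
  rw [this]; simp

lemma dm_nonneg (u v : ℕ → ℝ) (hu : ∀ p, 0 ≤ u p) (hv : ∀ p, 0 ≤ v p) (n : ℕ) : 0 ≤ dm u v n :=
  sum_nonneg fun p _ => mul_nonneg (Nat.cast_nonneg _) (mul_nonneg (hu p) (cm_nonneg v hv _))

/-! ### the new objects -/

variable (E : Env)

/-- all `R`-rough elements of a cell -/
noncomputable def csc (R i k : ℕ) : Finset ℕ := (cell E.δ i k).filter (fun n => Rough R n)

/-- `∏_{p^a ‖ n} (1 + 2 p g(p))^a` -/
noncomputable def E2c (j n : ℕ) : ℝ := cm (fun p => 1 + 2 * (p * E.g j p)) n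

/-! ### the statements -/

/-- (ES) the Euler product sum is small -/
def ESumC : Prop := ∀ η : ℝ, 0 < η → ∃ R₀ : ℕ, ∀ R : ℕ, R₀ ≤ R → ∃ J : ℕ, ∀ j : ℕ, J ≤ j →
  ∀ M : ℕ, ∑ t ∈ (Icc 2 M).filter (fun t => Rough R t),
    E2c E j t / t * (t : ℝ) ^ (-E.δ / 2) ≤ η

/-- (UP) contribution of the large control primes of the first kind -/
def UPartC : Prop := ∃ R₀ : ℕ, ∀ R : ℕ, R₀ ≤ R → ∃ J : ℕ, ∀ j : ℕ, J ≤ j → ∀ i : ℕ, j ≤ i →
  ∀ k : ℕ, k < nc E.δ i →
    ∑ n ∈ csc E R i k, ∑ p ∈ n.primeFactors.filter (fun p : ℕ => (2 : ℝ) ^ (3 / 5 * (i : ℝ)) < p),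
      (n.factorization p : ℝ) * (E.gu j p * (E2c E j (n / p) / ((n / p : ℕ) : ℝ))) ≤
        (if k ∈ E.Bad i then 0 else E.w i) + E.w i / 16

/-- (HP) contribution of the host primes `> 2^(i/20)` -/
def HPartC : Prop := ∃ R₀ : ℕ, ∀ R : ℕ, R₀ ≤ R → ∃ J : ℕ, ∀ j : ℕ, J ≤ j → ∀ i : ℕ, j ≤ i →
  ∀ k : ℕ, k < nc E.δ i →
    ∑ n ∈ csc E R i k, ∑ q ∈ n.primeFactors.filter (fun q : ℕ => (2 : ℝ) ^ (1 / 20 * (i : ℝ)) < q),
      (n.factorization q : ℝ) * (E.gh j q * (E2c E j (n / q) / ((n / q : ℕ) : ℝ))) ≤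
        (if k ∈ E.Bad i then E.w i else 0) + E.w i / 16

/-- (SP) contribution of the small control primes -/
def SPartC : Prop := ∃ J : ℕ, ∀ j : ℕ, J ≤ j → ∀ i : ℕ, j ≤ i → ∀ k : ℕ, k < nc E.δ i →
    ∑ n ∈ cell E.δ i k,
      (1 / (n : ℝ)) * cm (fun p => 1 + 2 * (p * E.gs j i p)) n ≤ E.w i / 16

/-- the part of the host sum which comes from the bad cell `(i', k')`, restricted to pairs `(n₁, n)`
satisfying `P`; here `n₁` runs through the hosts of `(i', k')`, `n` through the cell `(i, k)` -/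
noncomputable def HTC (j R i k i' k' : ℕ) (P : ℕ → ℕ → Prop) : ℝ :=
  ∑ u ∈ ((E.Host j i' k') ×ˢ (csc E R i k)).filter (fun u : ℕ × ℕ =>
      lp u.1 ∣ u.2 ∧ (2 : ℝ) ^ (1 / 20 * (i : ℝ)) < lp u.1 ∧ P u.1 u.2),
    (u.2.factorization (lp u.1) : ℝ) *
      (E.w i' / ((E.Host j i' k').card : ℝ) * ((u.1 : ℝ) / u.2) * E2c E j (u.2 / lp u.1))

/-- (H1) hosts of cells of scale `< (1-τ) i` -/
def HP1C : Prop := ∃ J : ℕ, ∀ j : ℕ, J ≤ j → ∀ R i k : ℕ, j ≤ i → k < nc E.δ i →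
  ∑ i' ∈ (range (2 * i + 3)).filter (fun i' : ℕ => j ≤ i' ∧ (i' : ℝ) < (1 - E.τ) * i),
    ∑ k' ∈ E.Bad i', HTC E j R i k i' k' (fun _ _ => True) ≤ E.w i / 64

/-- (HB) hosts of cells of scale `≥ (1-τ) i`, pairs with `n₁ ∤ n` -/
def HPBC : Prop := ∃ J : ℕ, ∀ j : ℕ, J ≤ j → ∀ R i k : ℕ, j ≤ i → k < nc E.δ i →
  ∑ i' ∈ (range (2 * i + 3)).filter (fun i' : ℕ => j ≤ i' ∧ (1 - E.τ) * i ≤ (i' : ℝ)),
    ∑ k' ∈ E.Bad i', HTC E j R i k i' k' (fun a b => ¬ a ∣ b) ≤ E.w i / 64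

/-- (HA) hosts of cells of scale `≥ (1-τ) i`, pairs with `n₁ ∣ n` -/
def HPAC : Prop := ∃ R₀ : ℕ, ∀ R : ℕ, R₀ ≤ R → ∃ J : ℕ, ∀ j : ℕ, J ≤ j → ∀ i k : ℕ, j ≤ i →
  k < nc E.δ i →
  ∑ i' ∈ (range (2 * i + 3)).filter (fun i' : ℕ => j ≤ i' ∧ (1 - E.τ) * i ≤ (i' : ℝ)),
    ∑ k' ∈ E.Bad i', HTC E j R i k i' k' (fun a b => a ∣ b) ≤
      (if k ∈ E.Bad i then E.w i else 0) + E.w i / 64

/-! ### the tasks -/

/-- task ES -/
def T_ESC : Prop := ∀ E : Env, E.GBounds → ESumC E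
/-- task UP -/
def T_UPC : Prop := ∀ E : Env, E.GBounds → ESumC E → UPartC E
/-- task SP -/
def T_SPC : Prop := ∀ E : Env, E.GBounds → SPartC E
/-- task H1 -/
def T_H1C : Prop := ∀ E : Env, E.HCount → E.GBounds → HP1C E
/-- task HB -/
def T_HBC : Prop := ∀ E : Env, E.HCount → E.GBounds → Env.PairB E.τ E.δ → HPBC E
/-- task HA -/
def T_HAC : Prop := ∀ E : Env, E.HCount → E.GBounds → ESumC E → HPAC E
/-- task HX -/
def T_HXC : Prop := ∀ E : Env, E.GBounds → HP1C E → HPAC E → HPBC E → HPartC E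

end Pool.Agent.Y847.CMO
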